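import Pool.Agent.Y546.WQ.Stm3

/-!
# Project WH, block POLE1: a linear relation from few irregular indices

We evaluate polynomials at the truncated exponential series `e`, so that `T ↦ T ^ s` becomes the rescaling
`t ↦ s t` and `T d/dT` becomes `d/dt`, modulo `t ^ (p - 1)`.
-/

set_option autoImplicit false

namespace Pool.Agent.Y780.WQ

open Pool.Agent.Y546.WQ Polynomial

section
variable {K : Type*} [Field K]

/-- equality of the coefficients with index less than `N` -/
def Eqm (N : ℕ) (A B : PowerSeries K) : Prop := ∀ k < N, PowerSeries.coeff k A = PowerSeries.coeff k B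

lemma Eqm.rfl' {N : ℕ} {A : PowerSeries K} : Eqm N A A := fun _ _ => rfl

lemma Eqm.symm {N : ℕ} {A B : PowerSeries K} (h : Eqm N A B) : Eqm N B A := fun k hk => (h k hk).symm

lemma Eqm.trans {N : ℕ} {A B C : PowerSeries K} (h : Eqm N A B) (h' : Eqm N B C) : Eqm N A C :=
  fun k hk => (h k hk).trans (h' k hk)

lemma Eqm.mono {N N' : ℕ} {A B : PowerSeries K} (h : Eqm N A B) (hN : N' ≤ N) : Eqm N' A B :=
  fun k hk => h k (lt_of_lt_of_le hk hN)

lemma Eqm.add {N : ℕ} {A B C D : PowerSeries K} (h : Eqm N A B) (h' : Eqm N C D) :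
    Eqm N (A + C) (B + D) := fun k hk => by rw [map_add, map_add, h k hk, h' k hk]

lemma Eqm.sub {N : ℕ} {A B C D : PowerSeries K} (h : Eqm N A B) (h' : Eqm N C D) :
    Eqm N (A - C) (B - D) := fun k hk => by rw [map_sub, map_sub, h k hk, h' k hk]

lemma Eqm.mul {N : ℕ} {A B C D : PowerSeries K} (h : Eqm N A B) (h' : Eqm N C D) :
    Eqm N (A * C) (B * D) := fun k hk => by
  rw [PowerSeries.coeff_mul, PowerSeries.coeff_mul]
  refine Finset.sum_congr rfl fun x hx => ?_
  have hx' := Finset.HasAntidiagonal.mem_antidiagonal.1 hx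
  rw [h _ (by omega), h' _ (by omega)]

lemma Eqm.pow {N : ℕ} {A B : PowerSeries K} (h : Eqm N A B) (n : ℕ) : Eqm N (A ^ n) (B ^ n) := by
  induction n with
  | zero => simpa using Eqm.rfl'
  | succ n ih => rw [pow_succ, pow_succ]; exact ih.mul h

lemma Eqm.prod {N : ℕ} {ι : Type*} (s : Finset ι) {A B : ι → PowerSeries K}
    (h : ∀ i ∈ s, Eqm N (A i) (B i)) : Eqm N (∏ i ∈ s, A i) (∏ i ∈ s, B i) := by
  classical
  induction s using Finset.induction_on with
  | empty => simpa using Eqm.rfl'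
  | insert a s ha ih =>
    rw [Finset.prod_insert ha, Finset.prod_insert ha]
    exact (h a (Finset.mem_insert_self a s)).mul (ih fun i hi => h i (Finset.mem_insert_of_mem hi))

lemma Eqm.sum {N : ℕ} {ι : Type*} (s : Finset ι) {A B : ι → PowerSeries K}
    (h : ∀ i ∈ s, Eqm N (A i) (B i)) : Eqm N (∑ i ∈ s, A i) (∑ i ∈ s, B i) := by
  intro k hk
  rw [map_sum, map_sum]
  exact Finset.sum_congr rfl fun i hi => h i hi k hk

lemma Eqm.rescale {N : ℕ} {A B : PowerSeries K} (h : Eqm N A B) (c : K) :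
    Eqm N (PowerSeries.rescale c A) (PowerSeries.rescale c B) := fun k hk => by
  rw [PowerSeries.coeff_rescale, PowerSeries.coeff_rescale, h k hk]

lemma Eqm.der {N : ℕ} {A B : PowerSeries K} (h : Eqm N A B) :
    Eqm (N - 1) (PowerSeries.derivative K A) (PowerSeries.derivative K B) := fun k hk => by
  rw [PowerSeries.coeff_derivative, PowerSeries.coeff_derivative, h (k + 1) (by omega)]

lemma Eqm.aeval {N : ℕ} {A B : PowerSeries K} (h : Eqm N A B) (g : Polynomial K) :
    Eqm N (aeval A g) (aeval B g) := by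
  induction g using Polynomial.induction_on' with
  | add g g' h1 h2 => rw [map_add, map_add]; exact h1.add h2
  | monomial n a =>
    rw [Polynomial.aeval_monomial, Polynomial.aeval_monomial]
    exact Eqm.rfl'.mul (h.pow n)

/-- cancel a unit -/
lemma Eqm.cancel {N : ℕ} {A B C : PowerSeries K} (h : Eqm N (A * C) (B * C))
    (hC : PowerSeries.constantCoeff C ≠ 0) : Eqm N A B := by
  have h1 := h.mul (Eqm.rfl' (A := C⁻¹))
  rwa [mul_assoc, mul_assoc, PowerSeries.mul_inv_cancel _ hC, mul_one, mul_one] at h1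

lemma Eqm.of_dvd {N : ℕ} {A B : PowerSeries K} (h : (PowerSeries.X : PowerSeries K) ^ N ∣ A - B) :
    Eqm N A B := fun k hk => by
  have := PowerSeries.X_pow_dvd_iff.1 h k hk
  rw [map_sub] at this
  exact sub_eq_zero.1 this

lemma der_rescale (c : K) (A : PowerSeries K) :
    PowerSeries.derivative K (PowerSeries.rescale c A) =
      PowerSeries.C c * PowerSeries.rescale c (PowerSeries.derivative K A) := by
  ext k
  rw [PowerSeries.coeff_derivative, PowerSeries.coeff_rescale, PowerSeries.coeff_C_mul,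
    PowerSeries.coeff_rescale, PowerSeries.coeff_derivative]
  ring

/-- logarithmic derivative of a product -/
lemma der_prod {ι : Type*} (s : Finset ι) (A u : ι → PowerSeries K)
    (h : ∀ i ∈ s, PowerSeries.derivative K (A i) = u i * A i) :
    PowerSeries.derivative K (∏ i ∈ s, A i) = (∑ i ∈ s, u i) * ∏ i ∈ s, A i := by
  classical
  induction s using Finset.induction_on with
  | empty => simp
  | insert a s ha ih =>
    rw [Finset.prod_insert ha, Finset.sum_insert ha, Derivation.leibniz,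
      ih fun i hi => h i (Finset.mem_insert_of_mem hi), h a (Finset.mem_insert_self a s),
      smul_eq_mul, smul_eq_mul]
    ring

lemma constantCoeff_rescale (c : K) (A : PowerSeries K) :
    PowerSeries.constantCoeff (PowerSeries.rescale c A) = PowerSeries.constantCoeff A := by
  rw [← PowerSeries.coeff_zero_eq_constantCoeff_apply, PowerSeries.coeff_rescale, pow_zero, one_mul,
    PowerSeries.coeff_zero_eq_constantCoeff_apply]

end

section
variable (p : ℕ) [hp : Fact p.Prime]

/-- the truncated exponential series -/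
noncomputable def ex : PowerSeries (ZMod p) := PowerSeries.mk fun k => ((k.factorial : ℕ) : ZMod p)⁻¹

lemma coeff_ex (k : ℕ) : PowerSeries.coeff k (ex p) = ((k.factorial : ℕ) : ZMod p)⁻¹ :=
  PowerSeries.coeff_mk _ _

lemma fac_ne {k : ℕ} (hk : k < p) : ((k.factorial : ℕ) : ZMod p) ≠ 0 := by
  rw [Ne, ZMod.natCast_eq_zero_iff, hp.out.dvd_factorial]
  omega

lemma const_ex : PowerSeries.constantCoeff (ex p) = 1 := by
  rw [← PowerSeries.coeff_zero_eq_constantCoeff_apply, coeff_ex]
  simp

lemma res_add (c c' : ZMod p) :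
    Eqm p (PowerSeries.rescale c (ex p) * PowerSeries.rescale c' (ex p)) (PowerSeries.rescale (c + c') (ex p)) := by
  intro k hk
  rw [PowerSeries.coeff_mul, PowerSeries.coeff_rescale, coeff_ex, (Commute.all c c').add_pow',
    Finset.sum_mul]
  refine Finset.sum_congr rfl fun x hx => ?_
  have hx' := Finset.HasAntidiagonal.mem_antidiagonal.1 hx
  rw [PowerSeries.coeff_rescale, PowerSeries.coeff_rescale, coeff_ex, coeff_ex]
  have h1 := fac_ne p (k := x.1) (by omega)
  have h2 := fac_ne p (k := x.2) (by omega)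
  have h3 := fac_ne p hk
  have h4 : ((k.choose x.1 : ℕ) : ZMod p) * (x.1.factorial : ℕ) * (x.2.factorial : ℕ) = (k.factorial : ℕ) := by
    have := Nat.choose_mul_factorial_mul_factorial (show x.1 ≤ k by omega)
    rw [show k - x.1 = x.2 by omega] at this
    rw [← Nat.cast_mul, ← Nat.cast_mul, this]
  rw [nsmul_eq_mul]
  field_simp
  rw [← h4]
  ring

lemma res_zero : PowerSeries.rescale (0 : ZMod p) (ex p) = 1 := by
  rw [PowerSeries.rescale_zero_apply, const_ex, map_one]

lemma ex_pow (s : ℕ) : Eqm p (ex p ^ s) (PowerSeries.rescale (s : ZMod p) (ex p)) := by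
  induction s with
  | zero => rw [pow_zero, Nat.cast_zero, res_zero]; exact Eqm.rfl'
  | succ s ih =>
    rw [pow_succ, Nat.cast_succ]
    refine (ih.mul (Eqm.rfl' (A := ex p))).trans ?_
    have h := res_add p (s : ZMod p) 1
    rw [PowerSeries.rescale_one, RingHom.id_apply] at h
    exact h

lemma aeval_rescale (c : ZMod p) (g : Polynomial (ZMod p)) :
    aeval (PowerSeries.rescale c (ex p)) g = PowerSeries.rescale c (aeval (ex p) g) := by
  have h := Polynomial.aeval_algHom_apply (PowerSeries.rescaleAlgHom c) (ex p) g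
  have h1 : ∀ A : PowerSeries (ZMod p), PowerSeries.rescaleAlgHom c A = PowerSeries.rescale c A := fun A =>
    RingHom.congr_fun (PowerSeries.coe_rescaleAlgHom c) A
  rwa [h1, h1] at h

/-- `T ↦ T ^ s` becomes `t ↦ s t` -/
lemma aeval_pow (s : ℕ) (g : Polynomial (ZMod p)) :
    Eqm p (aeval (ex p) (g.comp (X ^ s))) (PowerSeries.rescale (s : ZMod p) (aeval (ex p) g)) := by
  rw [Polynomial.aeval_comp, Polynomial.aeval_X_pow, ← aeval_rescale]
  exact (ex_pow p s).aeval g

lemma der_ex : Eqm (p - 1) (PowerSeries.derivative (ZMod p) (ex p)) (ex p) := by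
  intro k hk
  rw [PowerSeries.coeff_derivative, coeff_ex, coeff_ex, Nat.factorial_succ]
  have h1 := fac_ne p (k := k) (by omega)
  have h2 := fac_ne p (k := k + 1) (by omega)
  rw [Nat.factorial_succ] at h2
  push_cast at h2 ⊢
  have h3 : ((k : ZMod p) + 1) ≠ 0 := fun h => h2 (by rw [h, zero_mul])
  field_simp

/-- `T d/dT` becomes `d/dt` -/
lemma der_aeval (g : Polynomial (ZMod p)) :
    Eqm (p - 1) (PowerSeries.derivative (ZMod p) (aeval (ex p) g)) (aeval (ex p) (DD g)) := by
  rw [Derivation.map_aeval, DD, map_mul, aeval_X, smul_eq_mul, mul_comm (ex p)]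
  exact Eqm.rfl'.mul (der_ex p)

lemma der_ex_pow (i : ℕ) :
    Eqm (p - 1) (PowerSeries.derivative (ZMod p) (ex p ^ i)) (PowerSeries.C (i : ZMod p) * ex p ^ i) := by
  have h := der_aeval p (X ^ i)
  have h2 : DD (X ^ i : Polynomial (ZMod p)) = C (i : ZMod p) * X ^ i := by
    rw [DD, derivative_X_pow]
    rcases Nat.eq_zero_or_pos i with h0 | h0
    · subst h0; simp
    · obtain ⟨j, rfl⟩ : ∃ j, i = j + 1 := ⟨i - 1, by omega⟩
      rw [Nat.add_sub_cancel, pow_succ (n := j)]
      ring
  rw [h2, map_mul, map_pow, aeval_X, aeval_C] at h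
  exact h

lemma const_aeval (g : Polynomial (ZMod p)) : PowerSeries.constantCoeff (aeval (ex p) g) = g.eval 1 := by
  induction g using Polynomial.induction_on' with
  | add g g' h1 h2 => rw [map_add, map_add, h1, h2, eval_add]
  | monomial n a =>
    rw [aeval_monomial, map_mul, map_pow, const_ex, eval_monomial, one_pow]
    simp

lemma X_dvd : (PowerSeries.X : PowerSeries (ZMod p)) ∣ ex p - 1 := by
  rw [PowerSeries.X_dvd_iff, map_sub, const_ex, map_one, sub_self]

lemma eqm_of_dvd {N : ℕ} {g g' : Polynomial (ZMod p)} (h : (X - 1) ^ N ∣ g - g') :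
    Eqm N (aeval (ex p) g) (aeval (ex p) g') := by
  refine Eqm.of_dvd ?_
  rw [← map_sub]
  have h1 := map_dvd (aeval (ex p)) h
  rw [map_pow, map_sub, aeval_X, map_one] at h1
  exact (pow_dvd_pow_of_dvd (X_dvd p) N).trans h1

/-- the coefficient of `t` in the exponential series -/
lemma ex_sub : ∃ v : PowerSeries (ZMod p), ex p - 1 = PowerSeries.X * v ∧
    PowerSeries.constantCoeff v ≠ 0 := by
  obtain ⟨v, hv⟩ := X_dvd p
  refine ⟨v, hv, ?_⟩
  have h1 : PowerSeries.coeff 1 (ex p - 1) = PowerSeries.coeff 0 v := by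
    rw [hv, show (1 : ℕ) = 0 + 1 from rfl, PowerSeries.coeff_succ_X_mul]
  rw [PowerSeries.coeff_zero_eq_constantCoeff_apply] at h1
  rw [← h1, map_sub, coeff_ex, PowerSeries.coeff_one]
  simp

lemma dvd_of_eqm {N : ℕ} {g : Polynomial (ZMod p)} (h : Eqm N (aeval (ex p) g) 0) : (X - 1) ^ N ∣ g := by
  by_cases hg : g = 0
  · rw [hg]; exact dvd_zero _
  obtain ⟨U, hU, hU1⟩ := Polynomial.exists_eq_pow_rootMultiplicity_mul_and_not_dvd g hg 1
  set j := g.rootMultiplicity 1 with hj
  rw [map_one] at hU hU1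
  rcases le_or_gt N j with h1 | h1
  · rw [hU]; exact (pow_dvd_pow _ h1).mul_right _
  exfalso
  obtain ⟨v, hv, hv0⟩ := ex_sub p
  have h2 : aeval (ex p) g = PowerSeries.X ^ j * (v ^ j * aeval (ex p) U) := by
    rw [hU, map_mul, map_pow, map_sub, aeval_X, map_one, hv, mul_pow, mul_assoc]
  have h3 := h j h1
  rw [h2, map_zero, PowerSeries.coeff_X_pow_mul', if_pos le_rfl, Nat.sub_self,
    PowerSeries.coeff_zero_eq_constantCoeff_apply, map_mul, map_pow, const_aeval] at h3
  rcases mul_eq_zero.1 h3 with h4 | h4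
  · exact hv0 (eq_zero_of_pow_eq_zero h4)
  · exact hU1 (by rw [← map_one (C : ZMod p →+* Polynomial (ZMod p)), dvd_iff_isRoot]; exact h4)

end

section
variable (p : ℕ) [hp : Fact p.Prime]

/-- the consequence of the relations for the coefficients of the logarithmic derivative -/
lemma coeff_rel (f : Polynomial (ZMod p)) (hf1 : f.eval 1 ≠ 0) (h : PowerSeries (ZMod p))
    (hh : PowerSeries.derivative (ZMod p) (aeval (ex p) f) = h * aeval (ex p) f) (a i : ℕ) (r : ZMod p)
    (hr : (X - 1) ^ (p - 1) ∣ thPa p a f - Polynomial.C r * X ^ i) (k : ℕ) (hk : 1 ≤ k) (hkp : k + 2 < p) :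
    hsa p a (k + 1) * PowerSeries.coeff k h = 0 := by
  set F := aeval (ex p) f with hF
  set s : (ZMod p)ˣ → ZMod p := fun t => ((t⁻¹ : (ZMod p)ˣ) : ZMod p) with hs
  set P : PowerSeries (ZMod p) := ∏ t ∈ hf p a, PowerSeries.rescale (s t) F with hP
  set U : PowerSeries (ZMod p) := ∑ t ∈ hf p a, PowerSeries.C (s t) * PowerSeries.rescale (s t) h with hU
  have h1 : Eqm (p - 1) P (PowerSeries.C r * ex p ^ i) := by
    have h2 := eqm_of_dvd p hr
    rw [map_mul, map_pow, aeval_X, aeval_C, thPa, map_prod] at h2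
    refine Eqm.trans ?_ h2
    refine Eqm.prod _ fun t _ => ?_
    have h3 := aeval_pow p ((t⁻¹ : (ZMod p)ˣ) : ZMod p).val f
    rw [ZMod.natCast_val, ZMod.cast_id] at h3
    exact (h3.mono (by omega)).symm
  have h4 : PowerSeries.derivative (ZMod p) P = U * P := by
    refine der_prod _ _ _ fun t _ => ?_
    rw [der_rescale, hh, map_mul]
    ring
  have h5 : Eqm (p - 1 - 1) (U * P) (PowerSeries.C (i : ZMod p) * P) := by
    rw [← h4]
    refine h1.der.trans ?_
    rw [Derivation.leibniz, PowerSeries.derivative_C, smul_zero, add_zero, smul_eq_mul]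
    have h6 : Eqm (p - 1 - 1) (PowerSeries.C r * PowerSeries.derivative (ZMod p) (ex p ^ i))
        (PowerSeries.C r * (PowerSeries.C (i : ZMod p) * ex p ^ i)) :=
      Eqm.rfl'.mul ((der_ex_pow p i).mono (by omega))
    refine h6.trans ?_
    have h7 : PowerSeries.C r * (PowerSeries.C (i : ZMod p) * ex p ^ i) =
        PowerSeries.C (i : ZMod p) * (PowerSeries.C r * ex p ^ i) := by ring
    rw [h7]
    exact Eqm.rfl'.mul (h1.symm.mono (by omega))
  have hPc : PowerSeries.constantCoeff P ≠ 0 := by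
    rw [hP, map_prod]
    refine Finset.prod_ne_zero_iff.2 fun t _ => ?_
    rw [constantCoeff_rescale, hF, const_aeval]
    exact hf1
  have h8 := (h5.cancel hPc) k (by omega)
  rw [hU, map_sum, PowerSeries.coeff_C, if_neg (by omega)] at h8
  rw [hsa, Finset.sum_mul, ← h8]
  refine Finset.sum_congr rfl fun t _ => ?_
  rw [PowerSeries.coeff_C_mul, PowerSeries.coeff_rescale, pow_succ]
  ring

/-- the dual polynomial -/
lemma dual (f : Polynomial (ZMod p)) (m : ℕ) (hfm : f.natDegree ≤ m) :
    Eqm p (aeval (ex p) (f.reflect m)) (ex p ^ m * PowerSeries.rescale (-1) (aeval (ex p) f)) := by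
  have hc : PowerSeries.constantCoeff (ex p) ≠ 0 := by rw [const_ex]; exact one_ne_zero
  have h0 : ex p * (ex p)⁻¹ = 1 := PowerSeries.mul_inv_cancel _ hc
  have h0' : (ex p)⁻¹ * ex p = 1 := by rw [mul_comm]; exact h0
  let _ : Invertible ((ex p)⁻¹) := ⟨ex p, h0, h0'⟩
  have h1 := eval₂_reflect_mul_pow (algebraMap (ZMod p) (PowerSeries (ZMod p))) ((ex p)⁻¹) m f hfm
  have h2 : (⅟((ex p)⁻¹) : PowerSeries (ZMod p)) = ex p := rfl
  rw [h2, ← aeval_def, ← aeval_def] at h1
  have h3 : aeval (ex p) (f.reflect m) = ex p ^ m * aeval ((ex p)⁻¹) f := by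
    rw [← h1, mul_comm, mul_assoc, ← mul_pow, h0', one_pow, mul_one]
  rw [h3, ← aeval_rescale]
  refine Eqm.rfl'.mul (Eqm.aeval ?_ f)
  have h4 := res_add p 1 (-1)
  rw [PowerSeries.rescale_one, RingHom.id_apply, add_neg_cancel, res_zero] at h4
  have h5 := (Eqm.rfl' (N := p) (A := (ex p)⁻¹)).mul h4
  rw [← mul_assoc, h0', one_mul, mul_one] at h5
  exact h5.symm

theorem mainPOLE1 : S_POLE1 := by
  intro p hp m f J hp5 hfm hf1 hRel hJ hJp
  set F := aeval (ex p) f with hF
  set Fs := aeval (ex p) (f.reflect m) with hFs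
  have hFc : PowerSeries.constantCoeff F ≠ 0 := by rw [hF, const_aeval]; exact hf1
  set h : PowerSeries (ZMod p) := PowerSeries.derivative (ZMod p) F * F⁻¹ with hh
  have hdF : PowerSeries.derivative (ZMod p) F = h * F := by
    rw [hh, mul_assoc, mul_comm F⁻¹, PowerSeries.mul_inv_cancel _ hFc, mul_one]
  -- vanishing coefficients
  have hvan : ∀ k, 1 ≤ k → k + 2 < p → Even k → k + 1 ∉ J → PowerSeries.coeff k h = 0 := by
    intro k hk hkp hke hkJ
    obtain ⟨a, ha, hap, hne⟩ := hJ (k + 1) hke.add_one (by obtain ⟨c, rfl⟩ := hke; omega) (by omega) hkJ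
    obtain ⟨i, r, hr, hdvd⟩ := hRel a ha hap
    exact (mul_eq_zero.1 (coeff_rel p f hf1 h hdF a i r hdvd k hk hkp)).resolve_left hne
  -- the dual polynomial
  have hdual := dual p f m hfm
  rw [← hF, ← hFs] at hdual
  set h' : PowerSeries (ZMod p) := PowerSeries.rescale (-1) h with hh'
  have hdFs : Eqm (p - 1) (PowerSeries.derivative (ZMod p) Fs)
      ((PowerSeries.C (m : ZMod p) - h') * Fs) := by
    refine hdual.der.trans ?_
    rw [Derivation.leibniz, der_rescale, hdF, map_mul, smul_eq_mul, smul_eq_mul]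
    have h1 : Eqm (p - 1) (ex p ^ m * (PowerSeries.C (-1 : ZMod p) * (PowerSeries.rescale (-1) h *
        PowerSeries.rescale (-1) F)) + PowerSeries.rescale (-1) F *
          PowerSeries.derivative (ZMod p) (ex p ^ m))
        (ex p ^ m * (PowerSeries.C (-1 : ZMod p) * (PowerSeries.rescale (-1) h *
        PowerSeries.rescale (-1) F)) + PowerSeries.rescale (-1) F *
          (PowerSeries.C (m : ZMod p) * ex p ^ m)) :=
      Eqm.rfl'.add (Eqm.rfl'.mul (der_ex_pow p m))
    refine h1.trans ?_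
    have h2 : ex p ^ m * (PowerSeries.C (-1 : ZMod p) * (PowerSeries.rescale (-1) h *
        PowerSeries.rescale (-1) F)) + PowerSeries.rescale (-1) F *
          (PowerSeries.C (m : ZMod p) * ex p ^ m) =
        (PowerSeries.C (m : ZMod p) - h') * (ex p ^ m * PowerSeries.rescale (-1) F) := by
      rw [map_neg, map_one, hh']; ring
    rw [h2]
    exact Eqm.rfl'.mul (hdual.symm.mono (by omega))
  set Gm : PowerSeries (ZMod p) := h + h' - PowerSeries.C (m : ZMod p) with hGm
  have hV : aeval (ex p) (Vf m f) = F * Fs := by rw [Vf, map_mul]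
  have hW : Eqm (p - 1) (aeval (ex p) (Wf m f)) (F * Fs * Gm) := by
    rw [Wf, map_sub, map_mul, map_mul, ← hF, ← hFs]
    have h1 : Eqm (p - 1) (Fs * aeval (ex p) (DD f) - F * aeval (ex p) (DD (f.reflect m)))
        (Fs * (h * F) - F * ((PowerSeries.C (m : ZMod p) - h') * Fs)) := by
      refine Eqm.sub (Eqm.rfl'.mul ?_) (Eqm.rfl'.mul ?_)
      · rw [← hdF]; exact (der_aeval p f).symm
      · exact (der_aeval p (f.reflect m)).symm.trans hdFs
    refine h1.trans ?_
    have h2 : Fs * (h * F) - F * ((PowerSeries.C (m : ZMod p) - h') * Fs) = F * Fs * Gm := by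
      rw [hGm]; ring
    rw [h2]
    exact Eqm.rfl'
  have hcG : ∀ k, 1 ≤ k → PowerSeries.coeff k Gm = (1 + (-1) ^ k) * PowerSeries.coeff k h := by
    intro k hk
    rw [hGm, map_sub, map_add, hh', PowerSeries.coeff_rescale, PowerSeries.coeff_C, if_neg (by omega)]
    ring
  -- the coefficients b
  set n := J.card + 1 with hn
  obtain ⟨b, hb0, hb⟩ : ∃ b : Fin n → ZMod p, b ≠ 0 ∧ ∀ j ∈ J, ∑ i, b i * ((i : ℕ) + 1 : ZMod p) ^ (j - 1) = 0 := by
    let φ : (Fin n → ZMod p) →ₗ[ZMod p] (J → ZMod p) :=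
      LinearMap.pi fun j => ∑ i : Fin n, (((i : ℕ) + 1 : ZMod p) ^ ((j : ℕ) - 1)) • LinearMap.proj i
    have hφ : LinearMap.ker φ ≠ ⊥ := by
      refine LinearMap.ker_ne_bot_of_finrank_lt ?_
      rw [Module.finrank_fintype_fun_eq_card, Module.finrank_fintype_fun_eq_card, Fintype.card_coe,
        Fintype.card_fin]
      omega
    obtain ⟨b, hb, hb0⟩ := (Submodule.ne_bot_iff _).1 hφ
    refine ⟨b, hb0, fun j hj => ?_⟩
    have h1 := congrFun (LinearMap.mem_ker.1 hb) ⟨j, hj⟩
    simp only [φ, LinearMap.pi_apply, LinearMap.sum_apply, LinearMap.smul_apply, LinearMap.proj_apply,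
      smul_eq_mul, Pi.zero_apply] at h1
    rw [← h1]
    exact Finset.sum_congr rfl fun i _ => mul_comm _ _
  set b' : ℕ → ZMod p := fun i => if hi : 1 ≤ i ∧ i ≤ n then b ⟨i - 1, by omega⟩ else 0 with hb'
  have hsum : ∀ g : ℕ → ZMod p, ∑ i ∈ Finset.Icc 1 n, b' i * g i = ∑ i : Fin n, b i * g ((i : ℕ) + 1) := by
    intro g
    have h1 : Finset.Icc 1 n = Finset.Ico (0 + 1) (n + 1) := by ext x; simp
    rw [h1, ← Finset.sum_Ico_add' (fun i => b' i * g i) 0 n 1, ← Finset.range_eq_Ico,
      ← Fin.sum_univ_eq_sum_range (fun i => b' (i + 1) * g (i + 1)) n]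
    refine Finset.sum_congr rfl fun i _ => ?_
    have h2 : b' ((i : ℕ) + 1) = b i := by
      rw [hb']
      simp only
      rw [dif_pos ⟨by omega, by omega⟩]
      congr 1
    rw [h2]
  refine ⟨b', (∑ i ∈ Finset.Icc 1 n, b' i) * PowerSeries.coeff 0 Gm, ?_, ?_⟩
  · obtain ⟨i, hi⟩ := Function.ne_iff.1 hb0
    refine ⟨i + 1, by omega, by omega, ?_⟩
    rw [hb']
    simp only
    rw [dif_pos ⟨by omega, by omega⟩]
    simpa using hi
  · refine dvd_of_eqm p ?_
    set d : ZMod p := (∑ i ∈ Finset.Icc 1 n, b' i) * PowerSeries.coeff 0 Gm with hd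
    have hVk : ∀ k : ℕ, Eqm (p - 1) (aeval (ex p) ((Vf m f).comp (X ^ k)))
        (PowerSeries.rescale (k : ZMod p) (F * Fs)) := by
      intro k
      rw [← hV]
      exact (aeval_pow p k _).mono (by omega)
    have hWk : ∀ k : ℕ, Eqm (p - 1) (aeval (ex p) ((Wf m f).comp (X ^ k)))
        (PowerSeries.rescale (k : ZMod p) (F * Fs) * PowerSeries.rescale (k : ZMod p) Gm) := by
      intro k
      rw [← map_mul]
      exact ((aeval_pow p k _).mono (by omega)).trans (hW.rescale _)
    have h1 : Eqm (p - 1) (aeval (ex p) (Lin n (Wf m f) (Vf m f) b' d))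
        ((∑ i ∈ Finset.Icc 1 n, PowerSeries.C (b' i) * PowerSeries.rescale (i : ZMod p) Gm -
          PowerSeries.C d) * ∏ k ∈ Finset.Icc 1 n, PowerSeries.rescale (k : ZMod p) (F * Fs)) := by
      rw [Lin, map_sub, map_sum, map_mul, map_prod, sub_mul, Finset.sum_mul, aeval_C]
      refine Eqm.sub (Eqm.sum _ fun i hi => ?_) (Eqm.rfl'.mul (Eqm.prod _ fun k _ => hVk k))
      rw [map_mul, map_mul, map_prod, aeval_C]
      have h2 : Eqm (p - 1) (algebraMap (ZMod p) (PowerSeries (ZMod p)) (b' i) *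
          aeval (ex p) ((Wf m f).comp (X ^ i)) *
          ∏ k ∈ (Finset.Icc 1 n).erase i, aeval (ex p) ((Vf m f).comp (X ^ k)))
          (algebraMap (ZMod p) (PowerSeries (ZMod p)) (b' i) *
          (PowerSeries.rescale (i : ZMod p) (F * Fs) * PowerSeries.rescale (i : ZMod p) Gm) *
          ∏ k ∈ (Finset.Icc 1 n).erase i, PowerSeries.rescale (k : ZMod p) (F * Fs)) :=
        (Eqm.rfl'.mul (hWk i)).mul (Eqm.prod _ fun k _ => hVk k)
      refine h2.trans ?_
      rw [← Finset.mul_prod_erase (Finset.Icc 1 n) (fun k : ℕ => PowerSeries.rescale (k : ZMod p) (F * Fs)) hi]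
      have h3 : algebraMap (ZMod p) (PowerSeries (ZMod p)) (b' i) *
          (PowerSeries.rescale (i : ZMod p) (F * Fs) * PowerSeries.rescale (i : ZMod p) Gm) *
          ∏ k ∈ (Finset.Icc 1 n).erase i, PowerSeries.rescale (k : ZMod p) (F * Fs) =
          PowerSeries.C (b' i) * PowerSeries.rescale (i : ZMod p) Gm *
          (PowerSeries.rescale (i : ZMod p) (F * Fs) *
          ∏ k ∈ (Finset.Icc 1 n).erase i, PowerSeries.rescale (k : ZMod p) (F * Fs)) := by
        rw [PowerSeries.algebraMap_apply, Algebra.algebraMap_self_apply]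
        ring
      rw [h3]
      exact Eqm.rfl'
    have h4 : Eqm (p - 2) (∑ i ∈ Finset.Icc 1 n, PowerSeries.C (b' i) * PowerSeries.rescale (i : ZMod p) Gm -
          PowerSeries.C d) 0 := by
      intro k hk
      rw [map_sub, map_sum, map_zero]
      have h5 : ∀ i ∈ Finset.Icc 1 n, PowerSeries.coeff k (PowerSeries.C (b' i) *
          PowerSeries.rescale (i : ZMod p) Gm) = b' i * (i : ZMod p) ^ k * PowerSeries.coeff k Gm := by
        intro i _
        rw [PowerSeries.coeff_C_mul, PowerSeries.coeff_rescale]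
        ring
      rw [Finset.sum_congr rfl h5, ← Finset.sum_mul, PowerSeries.coeff_C]
      rcases Nat.eq_zero_or_pos k with h0 | h0
      · subst h0
        rw [if_pos rfl, hd]
        simp
      · rw [if_neg (by omega), sub_zero]
        rcases Nat.even_or_odd k with hev | hod
        · by_cases hkJ : k + 1 ∈ J
          · have h6 := hb (k + 1) hkJ
            have h7 := hsum fun i => (i : ZMod p) ^ k
            rw [h7]
            have h8 : ∑ i : Fin n, b i * ((((i : ℕ) + 1 : ℕ) : ZMod p)) ^ k = 0 := by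
              rw [← h6]
              refine Finset.sum_congr rfl fun i _ => ?_
              push_cast
              rfl
            rw [h8, zero_mul]
          · rw [hcG k h0, hvan k h0 (by omega) hev hkJ, mul_zero, mul_zero]
        · rw [hcG k h0, hod.neg_one_pow, add_neg_cancel, zero_mul, mul_zero]
    refine (h1.mono (by omega)).trans ?_
    have h9 := h4.mul (Eqm.rfl' (A := ∏ k ∈ Finset.Icc 1 n, PowerSeries.rescale (k : ZMod p) (F * Fs)))
    rwa [zero_mul] at h9

end

end Pool.Agent.Y780.WQ
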